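import Pool.Agent.LPR.Stmts

/-!
# LPR REP: the projection
-/

set_option autoImplicit false

open Set Topology Filter
open scoped BigOperators

namespace Pool.Agent.LPR.H61

open Pool.Agent.LSG Pool.Agent.LPR

/-- the extension of a sequence by a value at infinity -/
noncomputable def ex (f : ℕ → ℝ) (c : ℝ) : OnePoint ℕ → ℝ := fun n => OnePoint.elim n c f

theorem ex_nat (f : ℕ → ℝ) (c : ℝ) (n : ℕ) : ex f c (n : OnePoint ℕ) = f n := rfl

theorem ex_inf (f : ℕ → ℝ) (c : ℝ) : ex f c OnePoint.infty = c := rfl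

theorem ex_cont (f : ℕ → ℝ) (c : ℝ) (h : Tendsto f atTop (𝓝 c)) : Continuous (ex f c) := by
  rw [OnePoint.continuous_iff_from_nat]
  exact h

theorem pt_near (u : ℝ) (t₀ : unitInterval) : |(pt u : ℝ) - t₀| ≤ |u - t₀| := by
  have h := Set.abs_projIcc_sub_projIcc (a := (0 : ℝ)) (b := 1) (c := u) (d := (t₀ : ℝ)) zero_le_one
  rwa [Set.projIcc_val] at h

theorem pt_cont : Continuous pt := continuous_projIcc (h := zero_le_one)

/-- the difference which occurs in the projection, at all places of the sequence -/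
noncomputable def Dd {S : Type} [TopologicalSpace S] (a b : ℕ → ℕ → ℕ → ℝ)
    (g : S × unitInterval → ℝ) (m k : ℕ) (p : (S × unitInterval) × OnePoint ℕ) : ℝ :=
  g (p.1.1, pt (ex (a m k) (sg m k) p.2 +
      (p.1.2 : ℝ) * (ex (b m k) (sg m k) p.2 - ex (a m k) (sg m k) p.2))) -
    g (p.1.1, pt (sg m k))

theorem rep : RepStmt := by
  intro S _ O ρ χ a b w hP hS g hg
  have hgc : Continuous g := hg.1
  have hg0 : ∀ x, x ∉ O → g x = 0 := hg.2
  -- convergence of the slots
  have hbd : ∀ m k n, sg m k < a m k n ∧ a m k n < b m k n ∧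
      b m k n < sg m k + (1 / 2 : ℝ) ^ (m + 12) / (n + 1) := fun m k n =>
    ⟨(hS.ord m k n).1, (hS.ord m k n).2, hS.bd m k n⟩
  have hlim : ∀ m k, Tendsto (fun n : ℕ => sg m k + (1 / 2 : ℝ) ^ (m + 12) / (n + 1)) atTop
      (𝓝 (sg m k)) := by
    intro m k
    have h1 : Tendsto (fun n : ℕ => (1 / 2 : ℝ) ^ (m + 12) * (1 / ((n : ℝ) + 1))) atTop (𝓝 0) := by
      have := (tendsto_one_div_add_atTop_nhds_zero_nat (𝕜 := ℝ)).const_mul ((1 / 2 : ℝ) ^ (m + 12))
      rwa [mul_zero] at this
    have h2 := h1.const_add (sg m k)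
    rw [add_zero] at h2
    refine h2.congr fun n => ?_
    rw [mul_one_div]
  have hA : ∀ m k, Continuous (ex (a m k) (sg m k)) := by
    intro m k
    apply ex_cont
    exact tendsto_of_tendsto_of_tendsto_of_le_of_le tendsto_const_nhds (hlim m k)
      (fun n => (hbd m k n).1.le) (fun n => ((hbd m k n).2.1.trans (hbd m k n).2.2).le)
  have hB : ∀ m k, Continuous (ex (b m k) (sg m k)) := by
    intro m k
    apply ex_cont
    exact tendsto_of_tendsto_of_tendsto_of_le_of_le tendsto_const_nhds (hlim m k)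
      (fun n => ((hbd m k n).1.trans (hbd m k n).2.1).le) (fun n => (hbd m k n).2.2.le)
  have hDc : ∀ m k, Continuous (Dd a b g m k) := by
    intro m k
    have hA' := hA m k
    have hB' := hB m k
    have e1 : Continuous fun p : (S × unitInterval) × OnePoint ℕ =>
        (p.1.1, pt (ex (a m k) (sg m k) p.2 +
          (p.1.2 : ℝ) * (ex (b m k) (sg m k) p.2 - ex (a m k) (sg m k) p.2))) := by
      refine (continuous_fst.comp continuous_fst).prodMk (pt_cont.comp ?_)
      refine (hA'.comp continuous_snd).add ?_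
      exact (continuous_subtype_val.comp (continuous_snd.comp continuous_fst)).mul
        ((hB'.comp continuous_snd).sub (hA'.comp continuous_snd))
    have e2 : Continuous fun p : (S × unitInterval) × OnePoint ℕ => (p.1.1, pt (sg m k)) :=
      (continuous_fst.comp continuous_fst).prodMk continuous_const
    exact (hgc.comp e1).sub (hgc.comp e2)
  have hDinf : ∀ m k x, Dd a b g m k (x, OnePoint.infty) = 0 := by
    intro m k x
    simp only [Dd, ex_inf, sub_self, mul_zero, add_zero]
  -- the position of the points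
  have hpos : ∀ m k (t : unitInterval) (n : OnePoint ℕ),
      |ex (a m k) (sg m k) n + (t : ℝ) * (ex (b m k) (sg m k) n - ex (a m k) (sg m k) n) -
        sg m k| ≤ (1 / 2 : ℝ) ^ (m + 12) := by
    intro m k t n
    have ht0 : (0 : ℝ) ≤ t := t.2.1
    have ht1 : (t : ℝ) ≤ 1 := t.2.2
    have hpow : (0 : ℝ) < (1 / 2 : ℝ) ^ (m + 12) := by positivity
    induction n using OnePoint.rec with
    | infty =>
      simp only [ex_inf, sub_self, mul_zero, add_zero, abs_zero]
      exact hpow.le
    | coe n =>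
      simp only [ex_nat]
      obtain ⟨h1, h2, h3⟩ := hbd m k n
      have h4 : (1 / 2 : ℝ) ^ (m + 12) / (n + 1) ≤ (1 / 2 : ℝ) ^ (m + 12) := by
        apply div_le_self hpow.le
        have : (0 : ℝ) ≤ n := Nat.cast_nonneg n
        linarith
      have h5 : 0 ≤ (t : ℝ) * (b m k n - a m k n) := mul_nonneg ht0 (by linarith)
      have h6 : (t : ℝ) * (b m k n - a m k n) ≤ b m k n - a m k n := by
        have : (0 : ℝ) ≤ b m k n - a m k n := by linarith
        nlinarith
      rw [abs_le]
      constructor <;> linarith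
  -- the function
  let Gf : (S × unitInterval) × OnePoint ℕ → ℝ := fun p =>
    ∑ᶠ α : ℕ × ℕ, χ α.1 α.2 p.1 * Dd a b g α.1 α.2 p
  have hχ0 : ∀ x, x ∉ O → ∀ m k, χ m k x = 0 := by
    intro x hx m k
    by_contra hne
    have h1 := (hP.supp m k x hne).2.1
    have h2 : ρ x ≠ 0 := by
      have : (0 : ℝ) < (1 / 2 : ℝ) ^ (m + 1) := by positivity
      exact (this.trans h1).ne'
    exact hx ((hP.zero x).1 h2)
  have hGO : ∀ x, x ∉ O → ∀ n, Gf (x, n) = 0 := by
    intro x hx n
    have : ∀ α : ℕ × ℕ, χ α.1 α.2 x * Dd a b g α.1 α.2 (x, n) = 0 := by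
      intro α
      rw [hχ0 x hx, zero_mul]
    show ∑ᶠ α : ℕ × ℕ, χ α.1 α.2 x * Dd a b g α.1 α.2 (x, n) = 0
    simp only [this, finsum_zero]
  have hGi : ∀ x, Gf (x, OnePoint.infty) = 0 := by
    intro x
    show ∑ᶠ α : ℕ × ℕ, χ α.1 α.2 x * Dd a b g α.1 α.2 (x, OnePoint.infty) = 0
    simp only [hDinf, mul_zero, finsum_zero]
  have hGc : Continuous Gf := by
    rw [continuous_iff_continuousAt]
    intro p₀
    by_cases hO : p₀.1 ∈ O
    · -- finitely many terms
      have hρ0 : ρ p₀.1 ≠ 0 := (hP.zero _).2 hO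
      have hρ : 0 < ρ p₀.1 := lt_of_le_of_ne (hP.nonneg _) hρ0.symm
      obtain ⟨M, hM⟩ := exists_pow_lt_of_lt_one (show (0 : ℝ) < ρ p₀.1 / 4 by linarith)
        (show (1 / 2 : ℝ) < 1 by norm_num)
      have hnb : ∀ᶠ p : (S × unitInterval) × OnePoint ℕ in 𝓝 p₀, ρ p₀.1 / 2 < ρ p.1 := by
        have hc : Continuous fun p : (S × unitInterval) × OnePoint ℕ => ρ p.1 :=
          ρ.continuous.comp continuous_fst
        exact hc.continuousAt.eventually (lt_mem_nhds (by linarith : ρ p₀.1 / 2 < ρ p₀.1))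
      have hev : Gf =ᶠ[𝓝 p₀] fun p => ∑ α ∈ Finset.range M ×ˢ Finset.range (2 ^ (M + 4)),
          χ α.1 α.2 p.1 * Dd a b g α.1 α.2 p := by
        filter_upwards [hnb] with p hp
        show ∑ᶠ α : ℕ × ℕ, χ α.1 α.2 p.1 * Dd a b g α.1 α.2 p = _
        apply finsum_eq_sum_of_support_subset
        intro α hα
        have hne : χ α.1 α.2 p.1 ≠ 0 := by
          intro h0
          apply hα
          simp only [h0, zero_mul]
        obtain ⟨h1, _, h3, _⟩ := hP.supp _ _ _ hne
        have hm : α.1 < M := by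
          by_contra hle
          have hle' : M ≤ α.1 := Nat.le_of_not_lt hle
          have h4 : (1 / 2 : ℝ) ^ α.1 ≤ (1 / 2 : ℝ) ^ M :=
            pow_le_pow_of_le_one (by norm_num) (by norm_num) hle'
          linarith
        have hk : α.2 < 2 ^ (M + 4) :=
          lt_of_lt_of_le h1 (Nat.pow_le_pow_right (by norm_num) (by omega))
        simp only [Finset.coe_product, Set.mem_prod, Finset.coe_range, Set.mem_Iio]
        exact ⟨hm, hk⟩
      refine ContinuousAt.congr ?_ hev.symm
      refine Continuous.continuousAt ?_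
      refine continuous_finsetSum _ fun α _ => ?_
      exact ((χ α.1 α.2).continuous.comp continuous_fst).mul (hDc _ _)
    · -- small
      obtain ⟨⟨s₀, t₀⟩, n₀⟩ := p₀
      have hO' : ((s₀, t₀) : S × unitInterval) ∉ O := hO
      have hv : Gf ((s₀, t₀), n₀) = 0 := hGO _ hO' _
      rw [ContinuousAt, hv, Metric.tendsto_nhds]
      intro ε hε
      have hgx : ContinuousAt g (s₀, t₀) := hgc.continuousAt
      rw [ContinuousAt, hg0 _ hO', Metric.tendsto_nhds] at hgx
      have h1 := hgx (ε / 16) (by linarith)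
      rw [nhds_prod_eq, Filter.eventually_prod_iff] at h1
      obtain ⟨pa, hpa, pb, hpb, hab⟩ := h1
      obtain ⟨δ, hδ, hδb⟩ := Metric.eventually_nhds_iff.1 hpb
      have hρ0 : ρ (s₀, t₀) = 0 := by
        by_contra hne
        exact hO' ((hP.zero _).1 hne)
      have e1 : ∀ᶠ p : (S × unitInterval) × OnePoint ℕ in 𝓝 ((s₀, t₀), n₀), pa p.1.1 :=
        (continuous_fst.comp continuous_fst).continuousAt.eventually hpa
      have e2 : ∀ᶠ p : (S × unitInterval) × OnePoint ℕ in 𝓝 ((s₀, t₀), n₀),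
          |(p.1.2 : ℝ) - t₀| < δ / 2 := by
        have hc : Continuous fun p : (S × unitInterval) × OnePoint ℕ => |(p.1.2 : ℝ) - t₀| :=
          ((continuous_subtype_val.comp (continuous_snd.comp continuous_fst)).sub
            continuous_const).abs
        refine hc.continuousAt.eventually (gt_mem_nhds ?_)
        simp only [sub_self, abs_zero]
        linarith
      have e3 : ∀ᶠ p : (S × unitInterval) × OnePoint ℕ in 𝓝 ((s₀, t₀), n₀), ρ p.1 < δ / 2 := by
        have hc : Continuous fun p : (S × unitInterval) × OnePoint ℕ => ρ p.1 :=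
          ρ.continuous.comp continuous_fst
        refine hc.continuousAt.eventually (gt_mem_nhds ?_)
        show ρ (s₀, t₀) < δ / 2
        rw [hρ0]
        linarith
      filter_upwards [e1, e2, e3] with p hp1 hp2 hp3
      obtain ⟨⟨s, t⟩, n⟩ := p
      simp only at hp1 hp2 hp3
      rw [Real.dist_eq, sub_zero]
      by_cases hx : ((s, t) : S × unitInterval) ∈ O
      swap
      · rw [hGO _ hx, abs_zero]
        exact hε
      obtain ⟨T, hT4, hTs, _⟩ := hP.cover _ hx
      have hsum : Gf ((s, t), n) = ∑ α ∈ T, χ α.1 α.2 (s, t) * Dd a b g α.1 α.2 ((s, t), n) := by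
        show ∑ᶠ α : ℕ × ℕ, χ α.1 α.2 (s, t) * Dd a b g α.1 α.2 ((s, t), n) = _
        apply finsum_eq_sum_of_support_subset
        intro α hα
        have hne : χ α.1 α.2 (s, t) ≠ 0 := by
          intro h0
          apply hα
          simp only [h0, zero_mul]
        exact hTs _ _ hne
      have hterm : ∀ α ∈ T, |χ α.1 α.2 (s, t) * Dd a b g α.1 α.2 ((s, t), n)| ≤ ε / 8 := by
        intro α _
        by_cases hne : χ α.1 α.2 (s, t) = 0
        · rw [hne, zero_mul, abs_zero]
          linarith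
        obtain ⟨_, h2, _, h4⟩ := hP.supp _ _ _ hne
        have h4' : |(t : ℝ) - sg α.1 α.2| < (1 / 2 : ℝ) ^ (α.1 + 3) := h4
        have hq : (0 : ℝ) < (1 / 2 : ℝ) ^ (α.1 + 1) := by positivity
        have q3 : (1 / 2 : ℝ) ^ (α.1 + 3) = (1 / 2 : ℝ) ^ (α.1 + 1) / 4 := by
          rw [show α.1 + 3 = (α.1 + 1) + 2 from rfl, pow_add]
          norm_num
          ring
        have q12 : (1 / 2 : ℝ) ^ (α.1 + 12) ≤ (1 / 2 : ℝ) ^ (α.1 + 1) / 4 := by
          rw [← q3]
          exact pow_le_pow_of_le_one (by norm_num) (by norm_num) (by omega)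
        have hnear : ∀ u : ℝ, |u - sg α.1 α.2| ≤ (1 / 2 : ℝ) ^ (α.1 + 12) →
            |g (s, pt u)| < ε / 16 := by
          intro u hu
          have h5 : |u - t₀| < δ := by
            have : u - t₀ = (u - sg α.1 α.2) + (-((t : ℝ) - sg α.1 α.2)) + ((t : ℝ) - t₀) := by ring
            rw [this]
            have h6 := abs_add_three (u - sg α.1 α.2) (-((t : ℝ) - sg α.1 α.2)) ((t : ℝ) - t₀)
            rw [abs_neg] at h6
            have h7 : (1 / 2 : ℝ) ^ (α.1 + 1) < δ / 2 := h2.trans hp3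
            linarith
          have h8 : dist (pt u) t₀ < δ := by
            rw [Subtype.dist_eq, Real.dist_eq]
            exact (pt_near u t₀).trans_lt h5
          have h9 := hab hp1 (hδb h8)
          rwa [Real.dist_eq, sub_zero] at h9
        have hD : |Dd a b g α.1 α.2 ((s, t), n)| ≤ ε / 8 := by
          have d1 := hnear _ (hpos α.1 α.2 t n)
          have d2 := hnear (sg α.1 α.2) (by rw [sub_self, abs_zero]; positivity)
          have d3 : |Dd a b g α.1 α.2 ((s, t), n)| ≤
              |g (s, pt (ex (a α.1 α.2) (sg α.1 α.2) n +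
                (t : ℝ) * (ex (b α.1 α.2) (sg α.1 α.2) n - ex (a α.1 α.2) (sg α.1 α.2) n)))| +
              |g (s, pt (sg α.1 α.2))| := abs_sub _ _
          linarith
        rw [abs_mul]
        have hc := hP.chi01 α.1 α.2 (s, t)
        have hc1 : |χ α.1 α.2 (s, t)| ≤ 1 := by
          rw [abs_of_nonneg hc.1]
          exact hc.2
        calc |χ α.1 α.2 (s, t)| * |Dd a b g α.1 α.2 ((s, t), n)| ≤ 1 * (ε / 8) :=
              mul_le_mul hc1 hD (abs_nonneg _) zero_le_one
          _ = ε / 8 := one_mul _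
      rw [hsum]
      calc |∑ α ∈ T, χ α.1 α.2 (s, t) * Dd a b g α.1 α.2 ((s, t), n)|
          ≤ ∑ α ∈ T, |χ α.1 α.2 (s, t) * Dd a b g α.1 α.2 ((s, t), n)| :=
            Finset.abs_sum_le_sum_abs _ _
        _ ≤ ∑ α ∈ T, ε / 8 := Finset.sum_le_sum hterm
        _ = T.card * (ε / 8) := by rw [Finset.sum_const, nsmul_eq_mul]
        _ ≤ 4 * (ε / 8) := by
            have : (T.card : ℝ) ≤ 4 := by exact_mod_cast hT4
            exact mul_le_mul_of_nonneg_right this (by linarith)
        _ < ε := by linarith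
  refine ⟨Gf, ⟨hGc, hGO, hGi⟩, ?_⟩
  intro x n
  rfl

end Pool.Agent.LPR.H61
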